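import Pool.Agent.helper26.IM.SpecA

/-! # Project im, module STA: `Star l` for all `l` -/

set_option autoImplicit false

open Finset

namespace Pool.Agent.helper26.IM

open Finset Pool.Agent.RRank Pool.Agent.helper35.MR

theorem STA_zero : Star 0 := by
  refine ⟨0, fun K _ _ X Y Z T _ => ⟨Fin.elim0, Fin.elim0, Fin.elim0, ?_⟩⟩
  intro U V W h
  exfalso
  have h0 : ∀ S : Submodule K (Fin 0 → K), Module.finrank K S = 0 := fun S =>
    Module.finrank_zero_of_subsingleton
  rw [h0, h0, h0, Fintype.card_fin] at h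
  omega

theorem STA (hUP0 : UP0_stmt) (hINT : INT_stmt) (hNXT : NXT_stmt) : STA_stmt := by
  intro l
  induction l with
  | zero => exact STA_zero
  | succ l ih =>
    by_contra hn
    obtain ⟨K, _, _, X, Y, Z, T, h1, h2⟩ := hUP0 (l + 1) hn
    obtain ⟨N, q, α, β, γ, hE⟩ := hINT l ih K X Y Z T h1 h2
    have e0 : Ex (l + 1) False False False :=
      ⟨K, inferInstance, inferInstance, X, Y, Z, T, N, q, α, β, γ, h1, h2, hE,
        False.elim, False.elim, False.elim⟩
    have e3 : ¬ Ex (l + 1) True True True := by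
      intro h
      rcases hNXT _ _ _ _ h with ⟨h', -⟩ | ⟨h', -⟩ | ⟨h', -⟩ <;> exact h' trivial
    have e2a : ¬ Ex (l + 1) True True False := by
      intro h
      rcases hNXT _ _ _ _ h with ⟨h', -⟩ | ⟨h', -⟩ | ⟨-, h'⟩
      · exact h' trivial
      · exact h' trivial
      · exact e3 h'
    have e2b : ¬ Ex (l + 1) True False True := by
      intro h
      rcases hNXT _ _ _ _ h with ⟨h', -⟩ | ⟨-, h'⟩ | ⟨h', -⟩
      · exact h' trivial
      · exact e3 h'
      · exact h' trivial
    have e2c : ¬ Ex (l + 1) False True True := by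
      intro h
      rcases hNXT _ _ _ _ h with ⟨-, h'⟩ | ⟨h', -⟩ | ⟨h', -⟩
      · exact e3 h'
      · exact h' trivial
      · exact h' trivial
    have e1a : ¬ Ex (l + 1) True False False := by
      intro h
      rcases hNXT _ _ _ _ h with ⟨h', -⟩ | ⟨-, h'⟩ | ⟨-, h'⟩
      · exact h' trivial
      · exact e2a h'
      · exact e2b h'
    have e1b : ¬ Ex (l + 1) False True False := by
      intro h
      rcases hNXT _ _ _ _ h with ⟨-, h'⟩ | ⟨h', -⟩ | ⟨-, h'⟩
      · exact e2a h'
      · exact h' trivial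
      · exact e2c h'
    have e1c : ¬ Ex (l + 1) False False True := by
      intro h
      rcases hNXT _ _ _ _ h with ⟨-, h'⟩ | ⟨-, h'⟩ | ⟨h', -⟩
      · exact e2b h'
      · exact e2c h'
      · exact h' trivial
    rcases hNXT _ _ _ _ e0 with ⟨-, h'⟩ | ⟨-, h'⟩ | ⟨-, h'⟩
    · exact e1a h'
    · exact e1b h'
    · exact e1c h'

end Pool.Agent.helper26.IM
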